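import Pool.Agent.Helper87.LZ.CaseB

/-!
# The words `T_r` in the coordinates `Λ`: the quadratic form `H`

`a_j = 1 - t ^ j`, `q_j = Λ_j / a_j`, `H = ∑_{j = 2}^n W_j |q_j - q_{j-1}|²` with
`W_j = |a_{j-1}| |a_j| / σ ^ j`, `σ = √|t|`. Under the hypothesis `Step` (one inequality for each
`r`) the form does not increase under `T_r`, `r ≤ n`, so a word containing a full twist
has no fixed vector.
-/

set_option autoImplicit false

namespace Pool.Agent.Helper43.LZ

open Finset Pool.Agent.Helper87.LZ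

/-- `a_j = 1 - t ^ j` -/
noncomputable def a (t : ℂ) (j : ℕ) : ℂ := 1 - t ^ j

/-- `σ = √|t|` -/
noncomputable def sg (t : ℂ) : ℝ := Real.sqrt ‖t‖

/-- the weights of the form -/
noncomputable def W (t : ℂ) (j : ℕ) : ℝ := ‖a t (j - 1)‖ * ‖a t j‖ / sg t ^ j

/-- the constant of the chain -/
noncomputable def M (t : ℂ) (r : ℕ) : ℝ :=
  sg t ^ r * ‖a t 1‖ ^ 2 * ‖a t r‖ / (sg t ^ 4 * ‖a t (r - 1)‖)

/-- the one inequality of the chain, for all `2 ≤ r < n` (here `r = k + 2`) -/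
def Step (t : ℂ) (n : ℕ) : Prop := ∀ k : ℕ, k + 3 ≤ n → ∀ x y : ℂ,
  W t (k + 2) * ‖a t (k + 3) / a t (k + 2) * y - a t (k + 2) / a t (k + 1) * x‖ ^ 2
    + M t (k + 3) * ‖y‖ ^ 2 ≤ M t (k + 2) * ‖x‖ ^ 2 + W t (k + 3) * ‖y - x‖ ^ 2

/-- the form -/
noncomputable def H (t : ℂ) (n : ℕ) (L : ℕ → ℂ) : ℝ :=
  ∑ i ∈ range (n - 1), W t (i + 2) * ‖L (i + 2) / a t (i + 2) - L (i + 1) / a t (i + 1)‖ ^ 2

variable {t : ℂ} {n : ℕ}

theorem a_ne (h1 : ‖t‖ < 1) (j : ℕ) : a t (j + 1) ≠ 0 := by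
  unfold a
  intro h
  have h2 : t ^ (j + 1) = 1 := by linear_combination -h
  have h3 : ‖t‖ ^ (j + 1) < 1 := pow_lt_one₀ (norm_nonneg _) h1 (by omega)
  rw [← norm_pow, h2, norm_one] at h3
  exact lt_irrefl _ h3

theorem sg_pos (h0 : t ≠ 0) : 0 < sg t := Real.sqrt_pos.mpr (norm_pos_iff.mpr h0)

theorem sg_sq : sg t ^ 2 = ‖t‖ := Real.sq_sqrt (norm_nonneg _)

theorem sg_lt_one (h1 : ‖t‖ < 1) : sg t < 1 := by
  have h := sg_sq (t := t)
  have h2 : 0 ≤ sg t := Real.sqrt_nonneg _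
  by_contra h3
  push Not at h3
  nlinarith

theorem W_pos (h0 : t ≠ 0) (h1 : ‖t‖ < 1) (j : ℕ) : 0 < W t (j + 2) := by
  have e1 := norm_pos_iff.mpr (a_ne h1 j)
  have e2 := norm_pos_iff.mpr (a_ne h1 (j + 1))
  have e3 := sg_pos h0
  unfold W
  have : j + 2 - 1 = j + 1 := by omega
  rw [this]
  positivity

theorem M_pos (h0 : t ≠ 0) (h1 : ‖t‖ < 1) (j : ℕ) : 0 < M t (j + 2) := by
  have e0 := norm_pos_iff.mpr (a_ne h1 0)
  have e1 := norm_pos_iff.mpr (a_ne h1 j)
  have e2 := norm_pos_iff.mpr (a_ne h1 (j + 1))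
  have e3 := sg_pos h0
  unfold M
  have : j + 2 - 1 = j + 1 := by omega
  rw [this]
  simp only [zero_add] at e0
  positivity

theorem H_nonneg (h0 : t ≠ 0) (h1 : ‖t‖ < 1) (L : ℕ → ℂ) : 0 ≤ H t n L := by
  unfold H
  exact sum_nonneg fun i _ => mul_nonneg (W_pos h0 h1 i).le (sq_nonneg _)

theorem H_smul (c : ℂ) (L : ℕ → ℂ) : H t n (fun j => c * L j) = ‖c‖ ^ 2 * H t n L := by
  unfold H
  rw [mul_sum]
  refine sum_congr rfl fun i _ => ?_
  have : c * L (i + 2) / a t (i + 2) - c * L (i + 1) / a t (i + 1)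
      = c * (L (i + 2) / a t (i + 2) - L (i + 1) / a t (i + 1)) := by ring
  rw [this, norm_mul]
  ring

theorem H_congr {L L' : ℕ → ℂ} (h : ∀ j ≤ n, L j = L' j) : H t n L = H t n L' := by
  unfold H
  refine sum_congr rfl fun i hi => ?_
  rw [mem_range] at hi
  rw [h (i + 2) (by omega), h (i + 1) (by omega)]

theorem eq_zero_of_H (h0 : t ≠ 0) (h1 : ‖t‖ < 1) {L : ℕ → ℂ} (hL0 : L 0 = 0) (hLn : L n = 0)
    (hH : H t n L = 0) : ∀ j ≤ n, L j = 0 := by
  unfold H at hH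
  rw [sum_eq_zero_iff_of_nonneg (fun i _ => mul_nonneg (W_pos h0 h1 i).le (sq_nonneg _))] at hH
  have key : ∀ d : ℕ, ∀ j : ℕ, 1 ≤ j → j + d = n → L j = 0 := by
    intro d
    induction d with
    | zero =>
      intro j _ h
      rw [add_zero] at h
      rw [h]
      exact hLn
    | succ d ih =>
      intro j hj h
      have e1 := ih (j + 1) (by omega) (by omega)
      obtain ⟨i, rfl⟩ : ∃ i, j = i + 1 := ⟨j - 1, by omega⟩
      have e2 := hH i (mem_range.mpr (by omega))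
      have e3 := (mul_eq_zero.mp e2).resolve_left (W_pos h0 h1 i).ne'
      have e4 := norm_eq_zero.mp (pow_eq_zero_iff (two_ne_zero)|>.mp e3)
      have e5 : L (i + 2) = 0 := e1
      rw [e5, zero_div, zero_sub, neg_eq_zero, div_eq_zero_iff] at e4
      exact e4.resolve_right (a_ne h1 i)
  intro j hj
  rcases Nat.eq_zero_or_pos j with rfl | hj0
  · exact hL0
  · exact key (n - j) j hj0 (by omega)

/-- the chain -/
theorem chain (h0 : t ≠ 0) (h1 : ‖t‖ < 1) (hS : Step t n) (x : ℕ → ℂ) (hx : x 1 = 0) (k : ℕ)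
    (hk : k + 2 ≤ n) :
    M t (k + 2) * ‖x (k + 2)‖ ^ 2
      + ∑ i ∈ range k, W t (i + 2) * ‖a t (i + 3) / a t (i + 2) * x (i + 3)
          - a t (i + 2) / a t (i + 1) * x (i + 2)‖ ^ 2
      ≤ ∑ i ∈ range (k + 1), W t (i + 2) * ‖x (i + 2) - x (i + 1)‖ ^ 2 := by
  induction k with
  | zero =>
    simp only [range_zero, sum_empty, add_zero, zero_add, range_one, sum_singleton]
    rw [hx, sub_zero]
    have e0 := norm_pos_iff.mpr (a_ne h1 0)
    have e3 := sg_pos h0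
    have : M t 2 = W t 2 := by
      unfold M W
      simp only [zero_add] at e0
      norm_num
      field_simp
    rw [this]
  | succ k ih =>
    have e1 := ih (by omega)
    have e2 := hS k (by omega) (x (k + 2)) (x (k + 3))
    rw [sum_range_succ, sum_range_succ _ (k + 1)]
    have e3 : k + 1 + 2 = k + 3 := by omega
    have e4 : k + 1 + 1 = k + 2 := by omega
    rw [e3, e4]
    linarith

theorem H_T (h0 : t ≠ 0) (h1 : ‖t‖ < 1) (hS : Step t n) (r : ℕ) (hr : r ≤ n) (L : ℕ → ℂ) :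
    H t n (T t r L) ≤ H t n L := by
  rcases lt_or_ge r 2 with h | h
  · refine le_of_eq ?_
    unfold H
    refine sum_congr rfl fun i hi => ?_
    rw [T_of_le (by omega), T_of_le (by omega)]
  obtain ⟨k, rfl⟩ : ∃ k, r = k + 2 := ⟨r - 2, by omega⟩
  obtain ⟨l, rfl⟩ : ∃ l, n = k + 2 + l := ⟨n - (k + 2), by omega⟩
  set x : ℕ → ℂ := fun j => L j / a t j - L 1 / a t 1 with hx
  have hx1 : x 1 = 0 := by simp [hx]
  have hc := chain h0 h1 hS x hx1 k (by omega)
  -- the old form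
  have hold : H t (k + 2 + l) L = (∑ i ∈ range (k + 1), W t (i + 2) * ‖x (i + 2) - x (i + 1)‖ ^ 2)
      + ∑ i ∈ range l, W t (k + 1 + i + 2) * ‖x (k + 1 + i + 2) - x (k + 1 + i + 1)‖ ^ 2 := by
    unfold H
    have e : k + 2 + l - 1 = (k + 1) + l := by omega
    rw [e, sum_range_add]
    congr 1
    · refine sum_congr rfl fun i _ => ?_
      congr 3
      simp only [hx]
      ring
    · refine sum_congr rfl fun i _ => ?_
      congr 3
      simp only [hx]
      ring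
  -- the new coordinates
  have hT : ∀ j, 1 ≤ j → j < k + 2 → T t (k + 2) L j / a t j - L 1 / a t 1
      = a t (j + 1) / a t j * x (j + 1) := by
    intro j hj hj2
    obtain ⟨i, rfl⟩ : ∃ i, j = i + 1 := ⟨j - 1, by omega⟩
    have e1 := a_ne h1 i
    have e2 := a_ne h1 (i + 1)
    have e3 := a_ne h1 0
    simp only [zero_add] at e3
    have e4 : T t (k + 2) L (i + 1) = L (i + 1 + 1) - t ^ (i + 1) * L 1 := by
      unfold T
      rw [if_pos hj2]
    rw [e4]
    simp only [hx]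
    field_simp
    unfold a
    ring
  have hnew : H t (k + 2 + l) (T t (k + 2) L)
      = (∑ i ∈ range k, W t (i + 2) * ‖a t (i + 3) / a t (i + 2) * x (i + 3)
          - a t (i + 2) / a t (i + 1) * x (i + 2)‖ ^ 2)
        + W t (k + 2) * ‖x (k + 2) - a t (k + 2) / a t (k + 1) * x (k + 2)‖ ^ 2
      + ∑ i ∈ range l, W t (k + 1 + i + 2) * ‖x (k + 1 + i + 2) - x (k + 1 + i + 1)‖ ^ 2 := by
    unfold H
    have e : k + 2 + l - 1 = (k + 1) + l := by omega
    rw [e, sum_range_add, sum_range_succ]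
    congr 1
    · congr 1
      · refine sum_congr rfl fun i hi => ?_
        rw [mem_range] at hi
        have e1 := hT (i + 2) (by omega) (by omega)
        have e2 := hT (i + 1) (by omega) (by omega)
        congr 3
        have e3 : i + 2 + 1 = i + 3 := by omega
        have e4 : i + 1 + 1 = i + 2 := by omega
        rw [e3] at e1
        rw [e4] at e2
        rw [← e1, ← e2]
        ring
      · have e2 := hT (k + 1) (by omega) (by omega)
        have e4 : k + 1 + 1 = k + 2 := by omega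
        rw [e4] at e2
        congr 3
        rw [← e2, T_of_le (le_refl _)]
        simp only [hx]
        ring
    · refine sum_congr rfl fun i hi => ?_
      congr 3
      rw [T_of_le (by omega), T_of_le (by omega)]
      simp only [hx]
      ring
  rw [hold, hnew]
  -- the last term
  have hlast : W t (k + 2) * ‖x (k + 2) - a t (k + 2) / a t (k + 1) * x (k + 2)‖ ^ 2
      ≤ M t (k + 2) * ‖x (k + 2)‖ ^ 2 := by
    have e1 := a_ne h1 k
    have e1' := norm_pos_iff.mpr e1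
    have e2' := norm_pos_iff.mpr (a_ne h1 (k + 1))
    have e3 := sg_pos h0
    have e5 : x (k + 2) - a t (k + 2) / a t (k + 1) * x (k + 2)
        = -(t ^ (k + 1) * a t 1) / a t (k + 1) * x (k + 2) := by
      field_simp
      unfold a
      ring
    rw [e5, norm_mul, norm_div, norm_neg, norm_mul, norm_pow, mul_pow, ← mul_assoc]
    refine mul_le_mul_of_nonneg_right ?_ (sq_nonneg _)
    have e6 : ‖t‖ = sg t ^ 2 := sg_sq.symm
    have e7 : W t (k + 2) * ((sg t ^ 2) ^ (k + 1) * ‖a t 1‖ / ‖a t (k + 1)‖) ^ 2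
        = sg t ^ (2 * (k + 2)) * M t (k + 2) := by
      unfold W M
      have e8 : k + 2 - 1 = k + 1 := by omega
      rw [e8]
      have e9 : ‖a t (k + 1 + 1)‖ = ‖a t (k + 2)‖ := rfl
      field_simp
      ring
    rw [e6, e7]
    have e10 : sg t ^ (2 * (k + 2)) ≤ 1 := pow_le_one₀ e3.le (sg_lt_one h1).le
    exact mul_le_of_le_one_left (M_pos h0 h1 k).le e10
  linarith

theorem H_act (h0 : t ≠ 0) (h1 : ‖t‖ < 1) (hS : Step t n) (l : List ℕ) (hl : ∀ r ∈ l, r ≤ n)
    (L : ℕ → ℂ) : H t n (act t l L) ≤ H t n L := by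
  induction l generalizing L with
  | nil => exact le_refl _
  | cons r l ih =>
    rw [act_cons]
    exact (ih (fun r hr => hl r (List.mem_cons_of_mem _ hr)) _).trans
      (H_T h0 h1 hS r (hl r List.mem_cons_self) L)

/-- **Case A.** -/
theorem caseA_of (h0 : t ≠ 0) (h1 : ‖t‖ < 1) (hn : 1 ≤ n) (hS : Step t n) {m : ℕ} (hm : 1 ≤ m)
    (l : List ℕ) (hl : ∀ r ∈ l, r ≤ n) {L : ℕ → ℂ} (hL0 : L 0 = 0) (hLn : L n = 0)
    (hfix : ∀ j ≤ n, (t ^ n) ^ m * act t l L j = L j) : ∀ j ≤ n, L j = 0 := by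
  have e1 : H t n (fun j => (t ^ n) ^ m * act t l L j) = H t n L := H_congr hfix
  rw [H_smul] at e1
  have e2 := H_act h0 h1 hS l hl L
  have e3 : ‖(t ^ n) ^ m‖ < 1 := by
    rw [← pow_mul, norm_pow]
    exact pow_lt_one₀ (norm_nonneg _) h1 (Nat.mul_ne_zero (by omega) (by omega))
  have e4 := H_nonneg (n := n) h0 h1 L
  have e5 := H_nonneg (n := n) h0 h1 (act t l L)
  refine eq_zero_of_H h0 h1 hL0 hLn ?_
  have e6 : ‖(t ^ n) ^ m‖ ^ 2 < 1 := by
    have := norm_nonneg ((t ^ n) ^ m)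
    nlinarith
  have e7 : 0 ≤ ‖(t ^ n) ^ m‖ ^ 2 := sq_nonneg _
  nlinarith

end Pool.Agent.Helper43.LZ
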