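import Pool.Agent.Helper43.LZ.Wts
import Pool.Agent.Helper52.LZ.Core
import Pool.Agent.Helper60.LZ.CaseB2
import Pool.Agent.Helper69.LZ.Words

/-!
# All Lorenz links: `Δ A_1 Δ A_2 ... Δ A_k` has no fixed vector outside the sector
-/

set_option autoImplicit false

namespace Pool.Agent.Helper43.LZ

open Pool.Agent.Helper87.LZ

/-- (R) down to `292 / 1000` -/
theorem Rk_of {t : ℂ} (h0 : t ≠ 0) (h1 : ‖t‖ < 1) (hk : ‖1 - t‖ ≤ 2 * (1 - ‖t‖)) {n : ℕ}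
    (hh : 292 / 1000 ≤ ‖t‖ ^ n) : ∀ k, k + 3 ≤ n → Rk t k := by
  intro k hkn
  have hpow : 292 / 1000 ≤ ‖t‖ ^ (k + 2 + 1) :=
    hh.trans (pow_le_pow_of_le_one (norm_nonneg _) h1.le (by omega))
  have hR := H52LZ.Rp h0 h1 hk (r := k + 2) (by omega) hpow
  unfold Rk a sg
  rw [pow_one]
  exact hR

/-- **Case A**: any word in the `T_r`, `r ≤ n`, which contains `T_n`. -/
theorem caseA' {t : ℂ} (h0 : t ≠ 0) (h1 : ‖t‖ < 1) (hk : ‖1 - t‖ ≤ 2 * (1 - ‖t‖)) {n : ℕ}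
    (hh : 292 / 1000 ≤ ‖t‖ ^ n) (l : List ℕ) (hl : ∀ r ∈ l, r ≤ n) (hn : n ∈ l ∨ n ≤ 1)
    {L : ℕ → ℂ} (hL0 : L 0 = 0) (hLn : L n = 0) (hfix : ∀ j ≤ n, act t l L j = L j) :
    ∀ j ≤ n, L j = 0 :=
  no_fixed_R h0 h1 (Rk_of h0 h1 hk hh) l hl hn hL0 hLn hfix

theorem T_one {t : ℂ} {L : ℕ → ℂ} (h0 : L 0 = 0) : T t 1 L = L := by
  funext j
  unfold T
  split_ifs with h
  · have : j = 0 := by omega
    subst this
    rw [h0, pow_zero, one_mul, zero_add, sub_self]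
  · rfl

theorem act_zero {t : ℂ} (l : List ℕ) {L : ℕ → ℂ} (h0 : L 0 = 0) : act t l L 0 = 0 := by
  induction l generalizing L with
  | nil => exact h0
  | cons r l ih => rw [act_cons]; exact ih (T_zero h0 r)

/-- **Both cases, half twists and nondecreasing runs** (helper60's words). -/
theorem lorenz {t : ℂ} (h0 : t ≠ 0) (h1 : ‖t‖ < 1) (hk : ‖1 - t‖ ≤ 2 * (1 - ‖t‖)) {n : ℕ}
    (hn1 : 1 ≤ n) (R : List (List ℕ)) (hne : R ≠ [])
    (hR : ∀ l ∈ R, l.Pairwise (· ≤ ·) ∧ ∀ r ∈ l, 1 ≤ r ∧ r ≤ n)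
    {L : ℕ → ℂ} (hL0 : L 0 = 0) (hLn : L n = 0)
    (hfix : ∀ j ≤ n, act t (R.flatMap fun l => Pool.Agent.Helper60.LZ.dl n ++ l) L j = L j) :
    ∀ j ≤ n, L j = 0 := by
  rcases le_or_gt (3 / 10) (‖t‖ ^ n) with hh | hh
  · refine caseA' h0 h1 hk (by linarith) _ ?_ ?_ hL0 hLn hfix
    · intro r hr
      rw [List.mem_flatMap] at hr
      obtain ⟨l, hl, hr⟩ := hr
      rcases List.mem_append.mp hr with hr | hr
      · unfold Pool.Agent.Helper60.LZ.dl at hr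
        rw [List.mem_map] at hr
        obtain ⟨i, _, hi⟩ := hr
        omega
      · exact ((hR l hl).2 r hr).2
    · left
      rw [List.mem_flatMap]
      obtain ⟨l, hl⟩ := List.exists_mem_of_ne_nil R hne
      refine ⟨l, hl, List.mem_append_left _ ?_⟩
      unfold Pool.Agent.Helper60.LZ.dl
      rw [List.mem_map]
      exact ⟨0, List.mem_range.mpr (by omega), by omega⟩
  · exact Pool.Agent.Helper60.LZ.caseB3 h0 h1 hk hn1 hh.le R hne hR hL0 hLn hfix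

theorem act_alt {t : ℂ} {n : ℕ} (hn1 : 1 ≤ n) (R : List (List ℕ)) {L : ℕ → ℂ} (h0 : L 0 = 0) :
    act t (Pool.Agent.Helper69.LZ.alt n R) L
      = act t (R.flatMap fun l => Pool.Agent.Helper60.LZ.dl n ++ l) L := by
  have hdl : Pool.Agent.Helper60.LZ.dl n = Pool.Agent.Helper69.LZ.down n ++ [1] := by
    unfold Pool.Agent.Helper60.LZ.dl Pool.Agent.Helper69.LZ.down
    obtain ⟨m, rfl⟩ : ∃ m, n = m + 1 := ⟨n - 1, by omega⟩
    rw [List.range_succ, List.map_append]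
    congr 1
    simp
  induction R generalizing L with
  | nil => rfl
  | cons l R ih =>
    rw [Pool.Agent.Helper69.LZ.alt_cons, List.flatMap_cons, hdl]
    simp only [act_append, act_cons, act_nil]
    rw [T_one (act_zero _ h0)]
    rw [ih (act_zero _ (act_zero _ h0)), hdl]

/-- **Both cases** for the words `alt n R` of helper69. -/
theorem lorenz_alt {t : ℂ} (h0 : t ≠ 0) (h1 : ‖t‖ < 1) (hk : ‖1 - t‖ ≤ 2 * (1 - ‖t‖)) {n : ℕ}
    (hn1 : 1 ≤ n) (R : List (List ℕ)) (hne : R ≠ [])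
    (hR : ∀ l ∈ R, l.Pairwise (· ≤ ·) ∧ ∀ r ∈ l, 1 ≤ r ∧ r ≤ n)
    {L : ℕ → ℂ} (hL0 : L 0 = 0) (hLn : L n = 0)
    (hfix : ∀ j ≤ n, act t (Pool.Agent.Helper69.LZ.alt n R) L j = L j) : ∀ j ≤ n, L j = 0 := by
  rw [act_alt hn1 R hL0] at hfix
  exact lorenz h0 h1 hk hn1 R hne hR hL0 hLn hfix

end Pool.Agent.Helper43.LZ
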