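import Pool.Agent.Helper43.LZ.Step
import Pool.Agent.Helper80.LZ.Chain

/-!
# Case A
-/

set_option autoImplicit false

namespace Pool.Agent.Helper43.LZ

open Pool.Agent.Helper87.LZ

theorem step {t : ℂ} (h0 : t ≠ 0) (h1 : ‖t‖ < 1) (hk : ‖1 - t‖ ≤ 2 * (1 - ‖t‖)) {n : ℕ}
    (hh : 1 / 2 ≤ ‖t‖ ^ n) : Step t n := by
  refine step_of_R h0 h1 fun k hkn => ?_
  have hs := sg_pos h0
  have hs1 := sg_lt_one h1
  have hts : ‖t‖ = sg t ^ 2 := sg_sq.symm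
  have hpow : 1 / 2 ≤ ‖t‖ ^ (k + 1 + 1) :=
    hh.trans (pow_le_pow_of_le_one (norm_nonneg _) h1.le (by omega))
  have hR := Pool.Agent.Helper80.LZ.R_ineq t (sg t) hs hs1 hts (by rw [← hts]; exact hk) (k + 1)
    (by rw [← hts]; exact hpow)
  unfold Rk a
  rw [hts, pow_one]
  exact hR

/-- **Case A.** -/
theorem caseA {t : ℂ} (h0 : t ≠ 0) (h1 : ‖t‖ < 1) (hk : ‖1 - t‖ ≤ 2 * (1 - ‖t‖)) {n : ℕ}
    (hh : 1 / 2 ≤ ‖t‖ ^ n) (hn : 1 ≤ n) {m : ℕ} (hm : 1 ≤ m) (l : List ℕ) (hl : ∀ r ∈ l, r ≤ n)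
    {L : ℕ → ℂ} (hL0 : L 0 = 0) (hLn : L n = 0)
    (hfix : ∀ j ≤ n, (t ^ n) ^ m * act t l L j = L j) : ∀ j ≤ n, L j = 0 :=
  caseA_of h0 h1 hn (step h0 h1 hk hh) hm l hl hL0 hLn hfix

/-- **Both cases**: outside the sector a word with `m` full twists and at most `m` nondecreasing
runs has no fixed vector. -/
theorem both {t : ℂ} (h0 : t ≠ 0) (h1 : ‖t‖ < 1) (hk : ‖1 - t‖ ≤ 2 * (1 - ‖t‖)) {n : ℕ}
    (hn : 1 ≤ n) {m : ℕ} (hm : 1 ≤ m) (R : List (List ℕ)) (hlen : R.length ≤ m)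
    (hR : ∀ l ∈ R, l.Pairwise (· ≤ ·) ∧ ∀ r ∈ l, 1 ≤ r ∧ r ≤ n)
    {L : ℕ → ℂ} (hL0 : L 0 = 0) (hLn : L n = 0)
    (hfix : ∀ j ≤ n, (t ^ n) ^ m * act t R.flatten L j = L j) : ∀ j ≤ n, L j = 0 := by
  rcases le_or_gt (1 / 2) (‖t‖ ^ n) with hh | hh
  · refine caseA h0 h1 hk hh hn hm R.flatten ?_ hL0 hLn hfix
    intro r hr
    rw [List.mem_flatten] at hr
    obtain ⟨l, hl, hr⟩ := hr
    exact ((hR l hl).2 r hr).2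
  · exact caseB h1 (κ := 2) hk (by norm_num) (by linarith) hL0 hn hm R hlen hR hfix

end Pool.Agent.Helper43.LZ
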