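import Pool.Agent.Helper43.LZ.Step

/-!
# Words in the `T_r`: the frame with general weights

`a_j = 1 - t ^ j`, `q_j = Λ_j / a_j`, `H = ∑_{j = 2}^n W_j |q_j - q_{j-1}|²` with arbitrary positive
weights `W_j` and multipliers `M_r` which satisfy one inequality for each `r` (`Wt.step`). Then a
word in the `T_r`, `r ≤ n`, which contains `T_n`, has no fixed vector.
-/

set_option autoImplicit false

namespace Pool.Agent.Helper43.LZ

open Finset Pool.Agent.Helper87.LZ

/-- weights and multipliers -/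
structure Wt (t : ℂ) (n : ℕ) (W M : ℕ → ℝ) : Prop where
  W_pos : ∀ k, k + 2 ≤ n → 0 < W (k + 2)
  start : M 2 ≤ W 2
  step : ∀ k, k + 3 ≤ n → ∀ x y : ℂ,
    W (k + 2) * ‖a t (k + 3) / a t (k + 2) * y - a t (k + 2) / a t (k + 1) * x‖ ^ 2
      + M (k + 3) * ‖y‖ ^ 2 ≤ M (k + 2) * ‖x‖ ^ 2 + W (k + 3) * ‖y - x‖ ^ 2
  fin : ∀ k, k + 2 ≤ n → W (k + 2) * ‖1 - a t (k + 2) / a t (k + 1)‖ ^ 2 < M (k + 2)

/-- the form -/
noncomputable def HW (t : ℂ) (n : ℕ) (W : ℕ → ℝ) (L : ℕ → ℂ) : ℝ :=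
  ∑ i ∈ range (n - 1), W (i + 2) * ‖L (i + 2) / a t (i + 2) - L (i + 1) / a t (i + 1)‖ ^ 2

variable {t : ℂ} {n : ℕ} {W M : ℕ → ℝ}

theorem HW_congr {L L' : ℕ → ℂ} (h : ∀ j ≤ n, L j = L' j) : HW t n W L = HW t n W L' := by
  unfold HW
  refine sum_congr rfl fun i hi => ?_
  rw [mem_range] at hi
  rw [h (i + 2) (by omega), h (i + 1) (by omega)]

/-- the chain -/
theorem chainW (hw : Wt t n W M) (x : ℕ → ℂ) (hx : x 1 = 0) (k : ℕ) (hk : k + 2 ≤ n) :
    M (k + 2) * ‖x (k + 2)‖ ^ 2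
      + ∑ i ∈ range k, W (i + 2) * ‖a t (i + 3) / a t (i + 2) * x (i + 3)
          - a t (i + 2) / a t (i + 1) * x (i + 2)‖ ^ 2
      ≤ ∑ i ∈ range (k + 1), W (i + 2) * ‖x (i + 2) - x (i + 1)‖ ^ 2 := by
  induction k with
  | zero =>
    simp only [range_zero, sum_empty, add_zero, zero_add, range_one, sum_singleton]
    rw [hx, sub_zero]
    exact mul_le_mul_of_nonneg_right hw.start (sq_nonneg _)
  | succ k ih =>
    have e1 := ih (by omega)
    have e2 := hw.step k (by omega) (x (k + 2)) (x (k + 3))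
    rw [sum_range_succ, sum_range_succ _ (k + 1)]
    have e3 : k + 1 + 2 = k + 3 := by omega
    have e4 : k + 1 + 1 = k + 2 := by omega
    rw [e3, e4]
    linarith

/-- `H` does not increase, with the gain at the last place -/
theorem HW_gain (h1 : ‖t‖ < 1) (hw : Wt t n W M) (k : ℕ) (hk : k + 2 ≤ n) (L : ℕ → ℂ) :
    HW t n W (T t (k + 2) L) + (M (k + 2) - W (k + 2) * ‖1 - a t (k + 2) / a t (k + 1)‖ ^ 2)
      * ‖L (k + 2) / a t (k + 2) - L 1 / a t 1‖ ^ 2 ≤ HW t n W L := by
  obtain ⟨l, rfl⟩ : ∃ l, n = k + 2 + l := ⟨n - (k + 2), by omega⟩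
  set x : ℕ → ℂ := fun j => L j / a t j - L 1 / a t 1 with hx
  have hx1 : x 1 = 0 := by simp [hx]
  have hc := chainW hw x hx1 k (by omega)
  have hold : HW t (k + 2 + l) W L
      = (∑ i ∈ range (k + 1), W (i + 2) * ‖x (i + 2) - x (i + 1)‖ ^ 2)
      + ∑ i ∈ range l, W (k + 1 + i + 2) * ‖x (k + 1 + i + 2) - x (k + 1 + i + 1)‖ ^ 2 := by
    unfold HW
    have e : k + 2 + l - 1 = (k + 1) + l := by omega
    rw [e, sum_range_add]
    congr 1
    · refine sum_congr rfl fun i _ => ?_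
      congr 3
      simp only [hx]
      ring
    · refine sum_congr rfl fun i _ => ?_
      congr 3
      simp only [hx]
      ring
  have hT : ∀ j, 1 ≤ j → j < k + 2 → T t (k + 2) L j / a t j - L 1 / a t 1
      = a t (j + 1) / a t j * x (j + 1) := by
    intro j hj hj2
    obtain ⟨i, rfl⟩ : ∃ i, j = i + 1 := ⟨j - 1, by omega⟩
    have e1 := a_ne h1 i
    have e2 := a_ne h1 (i + 1)
    have e3 := a_ne h1 0
    simp only [zero_add] at e3
    have e4 : T t (k + 2) L (i + 1) = L (i + 1 + 1) - t ^ (i + 1) * L 1 := by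
      unfold T
      rw [if_pos hj2]
    rw [e4]
    simp only [hx]
    field_simp
    unfold a
    ring
  have hnew : HW t (k + 2 + l) W (T t (k + 2) L)
      = (∑ i ∈ range k, W (i + 2) * ‖a t (i + 3) / a t (i + 2) * x (i + 3)
          - a t (i + 2) / a t (i + 1) * x (i + 2)‖ ^ 2)
        + W (k + 2) * ‖x (k + 2) - a t (k + 2) / a t (k + 1) * x (k + 2)‖ ^ 2
      + ∑ i ∈ range l, W (k + 1 + i + 2) * ‖x (k + 1 + i + 2) - x (k + 1 + i + 1)‖ ^ 2 := by
    unfold HW
    have e : k + 2 + l - 1 = (k + 1) + l := by omega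
    rw [e, sum_range_add, sum_range_succ]
    congr 1
    · congr 1
      · refine sum_congr rfl fun i hi => ?_
        rw [mem_range] at hi
        have e1 := hT (i + 2) (by omega) (by omega)
        have e2 := hT (i + 1) (by omega) (by omega)
        congr 3
        have e3 : i + 2 + 1 = i + 3 := by omega
        have e4 : i + 1 + 1 = i + 2 := by omega
        rw [e3] at e1
        rw [e4] at e2
        rw [← e1, ← e2]
        ring
      · have e2 := hT (k + 1) (by omega) (by omega)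
        have e4 : k + 1 + 1 = k + 2 := by omega
        rw [e4] at e2
        congr 3
        rw [← e2, T_of_le (le_refl _)]
        simp only [hx]
        ring
    · refine sum_congr rfl fun i hi => ?_
      congr 3
      rw [T_of_le (by omega), T_of_le (by omega)]
      simp only [hx]
      ring
  rw [hold, hnew]
  have hlast : ‖x (k + 2) - a t (k + 2) / a t (k + 1) * x (k + 2)‖ ^ 2
      = ‖1 - a t (k + 2) / a t (k + 1)‖ ^ 2 * ‖x (k + 2)‖ ^ 2 := by
    rw [← mul_pow, ← norm_mul]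
    congr 2
    ring
  rw [hlast]
  have hx2 : L (k + 2) / a t (k + 2) - L 1 / a t 1 = x (k + 2) := rfl
  rw [hx2]
  linarith

theorem HW_T (h1 : ‖t‖ < 1) (hw : Wt t n W M) (r : ℕ) (hr : r ≤ n) (L : ℕ → ℂ) :
    HW t n W (T t r L) ≤ HW t n W L := by
  rcases lt_or_ge r 2 with h | h
  · refine le_of_eq ?_
    unfold HW
    refine sum_congr rfl fun i hi => ?_
    rw [T_of_le (by omega), T_of_le (by omega)]
  obtain ⟨k, rfl⟩ : ∃ k, r = k + 2 := ⟨r - 2, by omega⟩
  have e1 := HW_gain h1 hw k hr L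
  have e2 := hw.fin k hr
  have e3 : 0 ≤ (M (k + 2) - W (k + 2) * ‖1 - a t (k + 2) / a t (k + 1)‖ ^ 2)
      * ‖L (k + 2) / a t (k + 2) - L 1 / a t 1‖ ^ 2 := mul_nonneg (by linarith) (sq_nonneg _)
  linarith

theorem HW_act (h1 : ‖t‖ < 1) (hw : Wt t n W M) (l : List ℕ) (hl : ∀ r ∈ l, r ≤ n)
    (L : ℕ → ℂ) : HW t n W (act t l L) ≤ HW t n W L := by
  induction l generalizing L with
  | nil => exact le_refl _
  | cons r l ih =>
    rw [act_cons]
    exact (ih (fun r hr => hl r (List.mem_cons_of_mem _ hr)) _).trans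
      (HW_T h1 hw r (hl r List.mem_cons_self) L)

/-- equality at `T_r` -/
theorem eq_case (h1 : ‖t‖ < 1) (hw : Wt t n W M) {r : ℕ} (h2 : 2 ≤ r) (hr : r ≤ n) {L : ℕ → ℂ}
    (h : HW t n W (T t r L) = HW t n W L) (h0 : L r = 0) : L 1 = 0 := by
  obtain ⟨k, rfl⟩ : ∃ k, r = k + 2 := ⟨r - 2, by omega⟩
  have e1 := HW_gain h1 hw k hr L
  have e2 := hw.fin k hr
  have e3 : (M (k + 2) - W (k + 2) * ‖1 - a t (k + 2) / a t (k + 1)‖ ^ 2)
      * ‖L (k + 2) / a t (k + 2) - L 1 / a t 1‖ ^ 2 ≤ 0 := by linarith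
  have e4 : ‖L (k + 2) / a t (k + 2) - L 1 / a t 1‖ ^ 2 ≤ 0 := by
    by_contra hc
    push Not at hc
    have := mul_pos (sub_pos.mpr e2) hc
    linarith
  have e5 : ‖L (k + 2) / a t (k + 2) - L 1 / a t 1‖ = 0 :=
    pow_eq_zero_iff two_ne_zero |>.mp (le_antisymm e4 (sq_nonneg _))
  rw [norm_eq_zero, h0, zero_div, zero_sub, neg_eq_zero, div_eq_zero_iff] at e5
  have e6 := a_ne h1 0
  simp only [zero_add] at e6
  exact e5.resolve_right e6

/-- the coordinates from `k` on vanish -/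
def Zr (n k : ℕ) (L : ℕ → ℂ) : Prop := ∀ j, k ≤ j → j ≤ n → L j = 0

theorem Zr_T (h1 : ‖t‖ < 1) (hw : Wt t n W M) {r : ℕ} (hr : r ≤ n) {L : ℕ → ℂ} {k : ℕ}
    (h : HW t n W (T t r L) = HW t n W L) (hk : k + 1 ≤ n) (hZ : Zr n (k + 1) L) :
    Zr n (k + 1) (T t r L) ∧ (k + 1 ≤ r → 2 ≤ r → Zr n k (T t r L)) := by
  have key : k + 1 ≤ r → 2 ≤ r → Zr n k (T t r L) := by
    intro h3 h2 j hj hjn
    have e0 : L 1 = 0 := eq_case h1 hw h2 hr h (hZ r h3 hr)
    rcases lt_or_ge j r with h4 | h4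
    · unfold T
      rw [if_pos h4, e0, hZ (j + 1) (by omega) (by omega)]
      simp
    · rw [T_of_le h4]
      exact hZ j (by omega) hjn
  refine ⟨?_, key⟩
  intro j hj hjn
  rcases lt_or_ge r (k + 1) with h3 | h3
  · rw [T_of_le (by omega)]
    exact hZ j hj hjn
  · rcases lt_or_ge r 2 with h4 | h4
    · rw [T_of_le (by omega)]
      exact hZ j hj hjn
    · exact key h3 h4 j (by omega) hjn

theorem Zr_act (h1 : ‖t‖ < 1) (hw : Wt t n W M) {k : ℕ} (hk : k + 1 ≤ n) (hn2 : 2 ≤ n)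
    (l : List ℕ) (hl : ∀ r ∈ l, r ≤ n) {L : ℕ → ℂ} (h : HW t n W (act t l L) = HW t n W L)
    (hZ : Zr n (k + 1) L) : Zr n (k + 1) (act t l L) ∧ (n ∈ l → Zr n k (act t l L)) := by
  induction l generalizing L with
  | nil => exact ⟨hZ, fun h => absurd h List.not_mem_nil⟩
  | cons r l ih =>
    rw [act_cons] at h ⊢
    have e1 := HW_T h1 hw r (hl r List.mem_cons_self) L
    have e2 := HW_act h1 hw l (fun r hr => hl r (List.mem_cons_of_mem _ hr)) (T t r L)
    have e3 : HW t n W (T t r L) = HW t n W L := le_antisymm e1 (by rw [← h]; exact e2)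
    have e4 : HW t n W (act t l (T t r L)) = HW t n W (T t r L) := by rw [h, e3]
    have hr := hl r List.mem_cons_self
    obtain ⟨f1, f2⟩ := Zr_T h1 hw hr e3 hk hZ
    obtain ⟨g1, g2⟩ := ih (fun r hr => hl r (List.mem_cons_of_mem _ hr)) e4 f1
    refine ⟨g1, fun hmem => ?_⟩
    rcases List.mem_cons.mp hmem with h5 | h5
    · have h6 := f2 (by omega) (by omega)
      rcases Nat.eq_zero_or_pos k with rfl | hk0
      · -- all coordinates vanish
        intro j _ hjn
        rcases Nat.eq_zero_or_pos j with rfl | hj0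
        · have h7 : ∀ (l : List ℕ) (L : ℕ → ℂ), L 0 = 0 → act t l L 0 = 0 := by
            intro l
            induction l with
            | nil => intro L h; exact h
            | cons r l ih => intro L h; rw [act_cons]; exact ih _ (T_zero h r)
          exact h7 l _ (h6 0 le_rfl (by omega))
        · exact g1 j (by omega) hjn
      · obtain ⟨k', rfl⟩ : ∃ k', k = k' + 1 := ⟨k - 1, by omega⟩
        have h7 : ∀ (l : List ℕ), (∀ r ∈ l, r ≤ n) → ∀ L : ℕ → ℂ,
            HW t n W (act t l L) = HW t n W L → Zr n (k' + 1) L → Zr n (k' + 1) (act t l L) := by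
          intro l
          induction l with
          | nil => intro _ L _ h; exact h
          | cons r l ih =>
            intro hl L h hz
            rw [act_cons] at h ⊢
            have e1 := HW_T h1 hw r (hl r List.mem_cons_self) L
            have e2 := HW_act h1 hw l (fun r hr => hl r (List.mem_cons_of_mem _ hr)) (T t r L)
            have e3 : HW t n W (T t r L) = HW t n W L := le_antisymm e1 (by rw [← h]; exact e2)
            have e4 : HW t n W (act t l (T t r L)) = HW t n W (T t r L) := by rw [h, e3]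
            exact ih (fun r hr => hl r (List.mem_cons_of_mem _ hr)) _ e4
              (Zr_T h1 hw (hl r List.mem_cons_self) e3 (by omega) hz).1
        exact h7 l (fun r hr => hl r (List.mem_cons_of_mem _ hr)) _ e4 h6
    · exact g2 h5

/-- **No fixed vector**: a word in the `T_r`, `r ≤ n`, which contains `T_n`. -/
theorem no_fixed (h1 : ‖t‖ < 1) (hw : Wt t n W M) (l : List ℕ) (hl : ∀ r ∈ l, r ≤ n)
    (hn : n ∈ l ∨ n ≤ 1) {L : ℕ → ℂ} (hL0 : L 0 = 0) (hLn : L n = 0)
    (hfix : ∀ j ≤ n, act t l L j = L j) : ∀ j ≤ n, L j = 0 := by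
  rcases lt_or_ge n 2 with h | h2
  · intro j hj
    interval_cases n
    · rw [Nat.le_zero.mp hj]; exact hL0
    · rcases Nat.le_one_iff_eq_zero_or_eq_one.mp hj with rfl | rfl
      · exact hL0
      · exact hLn
  have hnl : n ∈ l := hn.resolve_right (by omega)
  have hH : HW t n W (act t l L) = HW t n W L := HW_congr hfix
  have key : ∀ d, d ≤ n → Zr n (n - d) L := by
    intro d
    induction d with
    | zero =>
      intro _ j hj hjn
      have : j = n := by omega
      rw [this]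
      exact hLn
    | succ d ih =>
      intro hd
      have e1 := ih (by omega)
      obtain ⟨k, hk⟩ : ∃ k, n - d = k + 1 := ⟨n - d - 1, by omega⟩
      rw [hk] at e1
      have e2 := (Zr_act h1 hw (by omega) h2 l hl hH e1).2 hnl
      have e3 : n - (d + 1) = k := by omega
      rw [e3]
      intro j hj hjn
      rw [← hfix j hjn]
      exact e2 j hj hjn
  intro j hj
  exact key n le_rfl j (by omega) hj

end Pool.Agent.Helper43.LZ
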