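import Pool.Agent.Helper43.LZ.A

/-!
# The step inequality from the inequality (R)
-/

set_option autoImplicit false

namespace Pool.Agent.Helper43.LZ

open Finset ComplexConjugate

/-- a Hermitian form of two variables -/
theorem form_nonneg {P R : ℝ} {g : ℂ} (h : ‖g‖ ^ 2 ≤ P * R) (h2 : 0 < P + R - 2 * g.re) (x y : ℂ) :
    2 * (g * y * conj x).re ≤ P * ‖x‖ ^ 2 + R * ‖y‖ ^ 2 := by
  have hg : |g.re| ≤ ‖g‖ := Complex.abs_re_le_norm g
  have hg0 := norm_nonneg g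
  have hPR : 0 ≤ P * R := (sq_nonneg _).trans h
  have hP : 0 ≤ P ∧ 0 ≤ R := by
    by_contra hc
    have hs : P + R ≤ 0 := by
      rcases le_or_gt 0 P with hP | hP
      · rcases le_or_gt 0 R with hR | hR
        · exact absurd ⟨hP, hR⟩ hc
        · rcases hP.eq_or_lt with hP | hP
          · linarith
          · nlinarith
      · rcases le_or_gt 0 R with hR | hR
        · rcases hR.eq_or_lt with hR | hR
          · linarith
          · nlinarith
        · linarith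
    have e1 : -(P + R) < 2 * ‖g‖ := by
      have := neg_abs_le g.re
      linarith
    have e2 : (P + R) ^ 2 < (2 * ‖g‖) ^ 2 := by
      rw [← neg_sq (P + R)]
      exact pow_lt_pow_left₀ e1 (by linarith) two_ne_zero
    nlinarith [sq_nonneg (P - R)]
  obtain ⟨hP, hR⟩ := hP
  have e1 : (g * y * conj x).re ≤ ‖g‖ * (‖x‖ * ‖y‖) := by
    refine (Complex.re_le_norm _).trans (le_of_eq ?_)
    rw [norm_mul, norm_mul, Complex.norm_conj]
    ring
  have e2 : ‖g‖ * (‖x‖ * ‖y‖) ≤ (P * ‖x‖ ^ 2 + R * ‖y‖ ^ 2) / 2 := by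
    refine abs_le_of_sq_le_sq' ?_ (by positivity) |>.2
    have e3 : (‖g‖ * (‖x‖ * ‖y‖)) ^ 2 ≤ (P * R) * (‖x‖ * ‖y‖) ^ 2 := by
      rw [mul_pow]
      exact mul_le_mul_of_nonneg_right h (sq_nonneg _)
    refine e3.trans ?_
    nlinarith [sq_nonneg (P * ‖x‖ ^ 2 - R * ‖y‖ ^ 2)]
  linarith

theorem quad {W W' M M' : ℝ} {α β : ℂ}
    (hdet : 0 ≤ M * W' - M * W * ‖α‖ ^ 2 - M * M' - W' * W * ‖β - α‖ ^ 2 - W' * M'
      + W * M' * ‖β‖ ^ 2)
    (htr : 0 < M - M' - W * ‖β - α‖ ^ 2) (x y : ℂ) :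
    W * ‖α * y - β * x‖ ^ 2 + M' * ‖y‖ ^ 2 ≤ M * ‖x‖ ^ 2 + W' * ‖y - x‖ ^ 2 := by
  have e := form_nonneg (P := M + W' - W * ‖β‖ ^ 2) (R := W' - W * ‖α‖ ^ 2 - M')
    (g := W' - W * (α * conj β)) ?_ ?_ x y
  · have e2 : M * ‖x‖ ^ 2 + W' * ‖y - x‖ ^ 2 - (W * ‖α * y - β * x‖ ^ 2 + M' * ‖y‖ ^ 2)
        = (M + W' - W * ‖β‖ ^ 2) * ‖x‖ ^ 2 + (W' - W * ‖α‖ ^ 2 - M') * ‖y‖ ^ 2
          - 2 * (((W' : ℂ) - W * (α * conj β)) * y * conj x).re := by
      simp only [Complex.sq_norm, Complex.normSq_apply, Complex.sub_re, Complex.sub_im,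
        Complex.mul_re, Complex.mul_im, Complex.ofReal_re, Complex.ofReal_im, Complex.conj_re,
        Complex.conj_im]
      ring
    linarith
  · have e2 : ‖(W' : ℂ) - W * (α * conj β)‖ ^ 2
        = (M + W' - W * ‖β‖ ^ 2) * (W' - W * ‖α‖ ^ 2 - M')
          - (M * W' - M * W * ‖α‖ ^ 2 - M * M' - W' * W * ‖β - α‖ ^ 2 - W' * M'
            + W * M' * ‖β‖ ^ 2) := by
      simp only [Complex.sq_norm, Complex.normSq_apply, Complex.sub_re, Complex.sub_im,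
        Complex.mul_re, Complex.mul_im, Complex.ofReal_re, Complex.ofReal_im, Complex.conj_re,
        Complex.conj_im]
      ring
    linarith
  · have e2 : M + W' - W * ‖β‖ ^ 2 + (W' - W * ‖α‖ ^ 2 - M')
        - 2 * ((W' : ℂ) - W * (α * conj β)).re = M - M' - W * ‖β - α‖ ^ 2 := by
      simp only [Complex.sq_norm, Complex.normSq_apply, Complex.sub_re, Complex.sub_im,
        Complex.mul_re, Complex.mul_im, Complex.ofReal_re, Complex.ofReal_im, Complex.conj_re,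
        Complex.conj_im]
      ring
    rw [e2]
    exact htr

/-- the inequality (R) for one `r = k + 2` -/
def Rk (t : ℂ) (k : ℕ) : Prop :=
  2 * sg t * (‖a t (k + 1)‖ * ‖a t (k + 3)‖) + ‖t‖ ^ (k + 1) * (1 + ‖t‖) * ‖a t 1‖ ^ 2
    ≤ (1 + ‖t‖) * ‖a t (k + 2)‖ ^ 2

theorem step_of_R {t : ℂ} (h0 : t ≠ 0) (h1 : ‖t‖ < 1) {n : ℕ} (hR : ∀ k, k + 3 ≤ n → Rk t k) :
    Step t n := by
  intro k hk x y
  have hr := hR k hk
  unfold Rk at hr
  have hs := sg_pos h0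
  have hs1 := sg_lt_one h1
  have hts : ‖t‖ = sg t ^ 2 := sg_sq.symm
  have eA := a_ne h1 k
  have eB := a_ne h1 (k + 1)
  have eC := a_ne h1 (k + 2)
  have e1 := a_ne h1 0
  simp only [zero_add] at e1
  have hA := norm_pos_iff.mpr eA
  have hB := norm_pos_iff.mpr eB
  have hC := norm_pos_iff.mpr eC
  have hc := norm_pos_iff.mpr e1
  have f1 : k + 1 + 1 = k + 2 := by omega
  have f2 : k + 2 + 1 = k + 3 := by omega
  rw [f1] at eB hB
  rw [f2] at eC hC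
  have f3 : k + 2 - 1 = k + 1 := by omega
  have f4 : k + 3 - 1 = k + 2 := by omega
  have hdiff : a t (k + 2) / a t (k + 1) - a t (k + 3) / a t (k + 2)
      = t ^ (k + 1) * a t 1 ^ 2 / (a t (k + 1) * a t (k + 2)) := by
    field_simp
    unfold a
    ring
  have hnd : ‖a t (k + 2) / a t (k + 1) - a t (k + 3) / a t (k + 2)‖ ^ 2
      = sg t ^ (4 * (k + 1)) * ‖a t 1‖ ^ 4 / (‖a t (k + 1)‖ ^ 2 * ‖a t (k + 2)‖ ^ 2) := by
    rw [hdiff, norm_div, norm_mul, norm_mul, norm_pow, norm_pow, hts]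
    rw [div_pow, mul_pow, mul_pow]
    congr 2
    · rw [← pow_mul, ← pow_mul]
      congr 1
      omega
    · ring
  rw [hts] at hr
  have hr' : 0 ≤ (1 + sg t ^ 2) * ‖a t (k + 2)‖ ^ 2 - 2 * sg t * (‖a t (k + 1)‖ * ‖a t (k + 3)‖)
      - (sg t ^ 2) ^ (k + 1) * (1 + sg t ^ 2) * ‖a t 1‖ ^ 2 := by linarith
  have hp1 : sg t ^ (k + 3) = sg t ^ (k + 2) * sg t := by ring
  have hp2 : sg t ^ (4 * (k + 1)) = (sg t ^ (k + 2)) ^ 4 / sg t ^ 4 := by
    field_simp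
    ring
  have hp3 : (sg t ^ 2) ^ (k + 1) = (sg t ^ (k + 2)) ^ 2 / sg t ^ 2 := by
    field_simp
    ring
  rw [hp3] at hr'
  refine quad ?_ ?_ x y
  · rw [hnd, norm_div, norm_div]
    unfold W M
    rw [f3, f4, hp1, hp2]
    set u := ‖a t (k + 1)‖
    set v := ‖a t (k + 2)‖
    set w := ‖a t (k + 3)‖
    set c := ‖a t 1‖
    set S := sg t ^ (k + 2) with hS
    set s := sg t
    have hSp : 0 < S := by positivity
    have key : S * c ^ 2 * v / (s ^ 4 * u) * (v * w / (S * s))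
        - S * c ^ 2 * v / (s ^ 4 * u) * (u * v / S) * (w / v) ^ 2
        - S * c ^ 2 * v / (s ^ 4 * u) * (S * s * c ^ 2 * w / (s ^ 4 * v))
        - v * w / (S * s) * (u * v / S) * (S ^ 4 / s ^ 4 * c ^ 4 / (u ^ 2 * v ^ 2))
        - v * w / (S * s) * (S * s * c ^ 2 * w / (s ^ 4 * v))
        + u * v / S * (S * s * c ^ 2 * w / (s ^ 4 * v)) * (v / u) ^ 2
        = c ^ 2 * w / (u * s ^ 5) * ((1 + s ^ 2) * v ^ 2 - 2 * s * (u * w)
          - S ^ 2 / s ^ 2 * (1 + s ^ 2) * c ^ 2) := by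
      field_simp
      ring
    rw [key]
    exact mul_nonneg (by positivity) hr'
  · rw [hnd]
    unfold W M
    rw [f3, f4, hp1, hp2]
    set u := ‖a t (k + 1)‖
    set v := ‖a t (k + 2)‖
    set w := ‖a t (k + 3)‖
    set c := ‖a t 1‖
    set S := sg t ^ (k + 2) with hS
    set s := sg t
    have hSp : 0 < S := by positivity
    have key : S * c ^ 2 * v / (s ^ 4 * u) - S * s * c ^ 2 * w / (s ^ 4 * v)
        - u * v / S * (S ^ 4 / s ^ 4 * c ^ 4 / (u ^ 2 * v ^ 2))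
        = c ^ 2 * S / (s ^ 4 * u * v) * (v ^ 2 - s * (u * w) - S ^ 2 * c ^ 2) := by
      field_simp
    rw [key]
    refine mul_pos (by positivity) ?_
    have g1 : 0 < S ^ 2 / s ^ 2 * c ^ 2 := by positivity
    have g2 : 0 < 1 - s ^ 2 := by nlinarith
    have g3 : 0 < s * (u * w) := by positivity
    have g4 : S ^ 2 * c ^ 2 = s ^ 2 * (S ^ 2 / s ^ 2 * c ^ 2) := by
      field_simp
    rw [g4]
    set Z := S ^ 2 / s ^ 2 * c ^ 2
    have g5 : S ^ 2 / s ^ 2 * (1 + s ^ 2) * c ^ 2 = (1 + s ^ 2) * Z := by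
      simp only [Z]
      ring
    rw [g5] at hr'
    have g6 : 0 < (1 + s ^ 2) * (v ^ 2 - s * (u * w) - s ^ 2 * Z) := by
      nlinarith [mul_pos g2 g3, mul_pos g2 g1]
    have g7 : 0 < 1 + s ^ 2 := by positivity
    exact (mul_pos_iff_of_pos_left g7).mp g6

end Pool.Agent.Helper43.LZ
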