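import Pool.Agent.Helper43.LZ.Frame

/-!
# Weights from scalar inequalities

`W_r = A_r |a_{r-1}| |a_r|`, `M_r = P_r |a_r| / |a_{r-1}|`.
-/

set_option autoImplicit false

namespace Pool.Agent.Helper43.LZ

open Finset ComplexConjugate Pool.Agent.Helper87.LZ

/-- a Hermitian form of two variables -/
theorem form_nonneg' {P R : ℝ} {g : ℂ} (h : ‖g‖ ^ 2 ≤ P * R)
    (h2 : 0 < P ∨ 0 < P + R - 2 * g.re) (x y : ℂ) :
    2 * (g * y * conj x).re ≤ P * ‖x‖ ^ 2 + R * ‖y‖ ^ 2 := by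
  rcases h2 with hP | h2
  · have hR : 0 ≤ R := by
      by_contra hc
      push Not at hc
      have h3 : P * R < 0 := mul_neg_of_pos_of_neg hP hc
      have h4 : 0 ≤ ‖g‖ ^ 2 := sq_nonneg _
      linarith
    have e1 : (g * y * conj x).re ≤ ‖g‖ * (‖x‖ * ‖y‖) := by
      refine (Complex.re_le_norm _).trans (le_of_eq ?_)
      rw [norm_mul, norm_mul, Complex.norm_conj]
      ring
    have e2 : ‖g‖ * (‖x‖ * ‖y‖) ≤ (P * ‖x‖ ^ 2 + R * ‖y‖ ^ 2) / 2 := by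
      refine abs_le_of_sq_le_sq' ?_ (by positivity) |>.2
      have e3 : (‖g‖ * (‖x‖ * ‖y‖)) ^ 2 ≤ (P * R) * (‖x‖ * ‖y‖) ^ 2 := by
        rw [mul_pow]
        exact mul_le_mul_of_nonneg_right h (sq_nonneg _)
      refine e3.trans ?_
      nlinarith [sq_nonneg (P * ‖x‖ ^ 2 - R * ‖y‖ ^ 2)]
    linarith
  · exact form_nonneg h h2 x y

theorem quad' {W W' M M' : ℝ} {α β : ℂ}
    (hdet : 0 ≤ M * W' - M * W * ‖α‖ ^ 2 - M * M' - W' * W * ‖β - α‖ ^ 2 - W' * M'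
      + W * M' * ‖β‖ ^ 2)
    (htr : 0 < M + W' - W * ‖β‖ ^ 2 ∨ 0 < M - M' - W * ‖β - α‖ ^ 2) (x y : ℂ) :
    W * ‖α * y - β * x‖ ^ 2 + M' * ‖y‖ ^ 2 ≤ M * ‖x‖ ^ 2 + W' * ‖y - x‖ ^ 2 := by
  have e := form_nonneg' (P := M + W' - W * ‖β‖ ^ 2) (R := W' - W * ‖α‖ ^ 2 - M')
    (g := W' - W * (α * conj β)) ?_ ?_ x y
  · have e2 : M * ‖x‖ ^ 2 + W' * ‖y - x‖ ^ 2 - (W * ‖α * y - β * x‖ ^ 2 + M' * ‖y‖ ^ 2)
        = (M + W' - W * ‖β‖ ^ 2) * ‖x‖ ^ 2 + (W' - W * ‖α‖ ^ 2 - M') * ‖y‖ ^ 2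
          - 2 * (((W' : ℂ) - W * (α * conj β)) * y * conj x).re := by
      simp only [Complex.sq_norm, Complex.normSq_apply, Complex.sub_re, Complex.sub_im,
        Complex.mul_re, Complex.mul_im, Complex.ofReal_re, Complex.ofReal_im, Complex.conj_re,
        Complex.conj_im]
      ring
    linarith
  · have e2 : ‖(W' : ℂ) - W * (α * conj β)‖ ^ 2
        = (M + W' - W * ‖β‖ ^ 2) * (W' - W * ‖α‖ ^ 2 - M')
          - (M * W' - M * W * ‖α‖ ^ 2 - M * M' - W' * W * ‖β - α‖ ^ 2 - W' * M'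
            + W * M' * ‖β‖ ^ 2) := by
      simp only [Complex.sq_norm, Complex.normSq_apply, Complex.sub_re, Complex.sub_im,
        Complex.mul_re, Complex.mul_im, Complex.ofReal_re, Complex.ofReal_im, Complex.conj_re,
        Complex.conj_im]
      ring
    linarith
  · have e2 : M + W' - W * ‖β‖ ^ 2 + (W' - W * ‖α‖ ^ 2 - M')
        - 2 * ((W' : ℂ) - W * (α * conj β)).re = M - M' - W * ‖β - α‖ ^ 2 := by
      simp only [Complex.sq_norm, Complex.normSq_apply, Complex.sub_re, Complex.sub_im,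
        Complex.mul_re, Complex.mul_im, Complex.ofReal_re, Complex.ofReal_im, Complex.conj_re,
        Complex.conj_im]
      ring
    rw [e2]
    exact htr

/-- the norm of the difference of two quotients -/
theorem norm_diff {t : ℂ} (h1 : ‖t‖ < 1) (k : ℕ) :
    ‖a t (k + 2) / a t (k + 1) - a t (k + 3) / a t (k + 2)‖
      = ‖t‖ ^ (k + 1) * ‖a t 1‖ ^ 2 / (‖a t (k + 1)‖ * ‖a t (k + 2)‖) := by
  have eA := a_ne h1 k
  have eB : a t (k + 2) ≠ 0 := a_ne h1 (k + 1)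
  have hdiff : a t (k + 2) / a t (k + 1) - a t (k + 3) / a t (k + 2)
      = t ^ (k + 1) * a t 1 ^ 2 / (a t (k + 1) * a t (k + 2)) := by
    field_simp
    unfold a
    ring
  rw [hdiff, norm_div, norm_mul, norm_mul, norm_pow, norm_pow]

theorem norm_one_sub {t : ℂ} (h1 : ‖t‖ < 1) (k : ℕ) :
    ‖1 - a t (k + 2) / a t (k + 1)‖ = ‖t‖ ^ (k + 1) * ‖a t 1‖ / ‖a t (k + 1)‖ := by
  have eA := a_ne h1 k
  have hdiff : 1 - a t (k + 2) / a t (k + 1) = -(t ^ (k + 1) * a t 1) / a t (k + 1) := by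
    field_simp
    unfold a
    ring
  rw [hdiff, norm_div, norm_neg, norm_mul, norm_pow]

/-- the weights from two sequences `A`, `P` (`k + 2 = r`) -/
theorem wt_of {t : ℂ} (h1 : ‖t‖ < 1) {n : ℕ} {A P : ℕ → ℝ}
    (hA : ∀ k, k + 2 ≤ n → 0 < A (k + 2))
    (hs : P 2 ≤ A 2 * ‖a t 1‖ ^ 2)
    (hstep : ∀ k, k + 3 ≤ n →
      P (k + 2) * P (k + 3) + A (k + 2) * A (k + 3) * (‖t‖ ^ (k + 1) * ‖a t 1‖ ^ 2) ^ 2
        ≤ P (k + 2) * (A (k + 3) * ‖a t (k + 2)‖ ^ 2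
            - A (k + 2) * (‖a t (k + 1)‖ * ‖a t (k + 3)‖))
          + P (k + 3) * (A (k + 2) * ‖a t (k + 2)‖ ^ 2
            - A (k + 3) * (‖a t (k + 1)‖ * ‖a t (k + 3)‖)))
    (htr : ∀ k, k + 3 ≤ n →
      0 < P (k + 2) + A (k + 3) * (‖a t (k + 1)‖ * ‖a t (k + 3)‖) - A (k + 2) * ‖a t (k + 2)‖ ^ 2 ∨
      0 < P (k + 2) * ‖a t (k + 2)‖ ^ 2 - P (k + 3) * (‖a t (k + 1)‖ * ‖a t (k + 3)‖)
        - A (k + 2) * (‖t‖ ^ (k + 1) * ‖a t 1‖ ^ 2) ^ 2)
    (hfin : ∀ k, k + 2 ≤ n → A (k + 2) * (‖t‖ ^ (k + 1)) ^ 2 * ‖a t 1‖ ^ 2 < P (k + 2)) :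
    Wt t n (fun r => A r * (‖a t (r - 1)‖ * ‖a t r‖)) (fun r => P r * (‖a t r‖ / ‖a t (r - 1)‖)) := by
  have e1 := a_ne h1 0
  simp only [zero_add] at e1
  have hc := norm_pos_iff.mpr e1
  refine ⟨?_, ?_, ?_, ?_⟩
  · intro k hk
    have f3 : k + 2 - 1 = k + 1 := by omega
    have hA1 := norm_pos_iff.mpr (a_ne h1 k)
    have hB1 : 0 < ‖a t (k + 2)‖ := norm_pos_iff.mpr (a_ne h1 (k + 1))
    simp only [f3]
    exact mul_pos (hA k hk) (mul_pos hA1 hB1)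
  · have hB1 : 0 < ‖a t 2‖ := norm_pos_iff.mpr (a_ne h1 1)
    have f3 : 2 - 1 = 1 := by omega
    simp only [f3]
    have : P 2 * (‖a t 2‖ / ‖a t 1‖) ≤ A 2 * ‖a t 1‖ ^ 2 * (‖a t 2‖ / ‖a t 1‖) :=
      mul_le_mul_of_nonneg_right hs (by positivity)
    refine this.trans (le_of_eq ?_)
    field_simp
  · intro k hk x y
    have hA1 := norm_pos_iff.mpr (a_ne h1 k)
    have hB1 : 0 < ‖a t (k + 2)‖ := norm_pos_iff.mpr (a_ne h1 (k + 1))
    have hC1 : 0 < ‖a t (k + 3)‖ := norm_pos_iff.mpr (a_ne h1 (k + 2))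
    have f3 : k + 2 - 1 = k + 1 := by omega
    have f4 : k + 3 - 1 = k + 2 := by omega
    simp only [f3, f4]
    have h3 := hstep k hk
    have h4 := htr k hk
    refine quad' ?_ ?_ x y
    · rw [norm_diff h1, norm_div, norm_div]
      set u := ‖a t (k + 1)‖
      set v := ‖a t (k + 2)‖
      set w := ‖a t (k + 3)‖
      set Z := ‖t‖ ^ (k + 1) * ‖a t 1‖ ^ 2
      have key : P (k + 2) * (v / u) * (A (k + 3) * (v * w))
          - P (k + 2) * (v / u) * (A (k + 2) * (u * v)) * (w / v) ^ 2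
          - P (k + 2) * (v / u) * (P (k + 3) * (w / v))
          - A (k + 3) * (v * w) * (A (k + 2) * (u * v)) * (Z / (u * v)) ^ 2
          - A (k + 3) * (v * w) * (P (k + 3) * (w / v))
          + A (k + 2) * (u * v) * (P (k + 3) * (w / v)) * (v / u) ^ 2
          = w / u * (P (k + 2) * (A (k + 3) * v ^ 2 - A (k + 2) * (u * w))
            + P (k + 3) * (A (k + 2) * v ^ 2 - A (k + 3) * (u * w))
            - (P (k + 2) * P (k + 3) + A (k + 2) * A (k + 3) * Z ^ 2)) := by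
        field_simp
        ring
      rw [key]
      exact mul_nonneg (by positivity) (by linarith)
    · rw [norm_diff h1, norm_div]
      set u := ‖a t (k + 1)‖
      set v := ‖a t (k + 2)‖
      set w := ‖a t (k + 3)‖
      set Z := ‖t‖ ^ (k + 1) * ‖a t 1‖ ^ 2
      rcases h4 with h4 | h4
      · left
        have key : P (k + 2) * (v / u) + A (k + 3) * (v * w) - A (k + 2) * (u * v) * (v / u) ^ 2
            = v / u * (P (k + 2) + A (k + 3) * (u * w) - A (k + 2) * v ^ 2) := by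
          field_simp
        rw [key]
        exact mul_pos (by positivity) h4
      · right
        have key : P (k + 2) * (v / u) - P (k + 3) * (w / v)
            - A (k + 2) * (u * v) * (Z / (u * v)) ^ 2
            = (P (k + 2) * v ^ 2 - P (k + 3) * (u * w) - A (k + 2) * Z ^ 2) / (u * v) := by
          field_simp
        rw [key]
        exact div_pos h4 (by positivity)
  · intro k hk
    have hA1 := norm_pos_iff.mpr (a_ne h1 k)
    have hB1 : 0 < ‖a t (k + 2)‖ := norm_pos_iff.mpr (a_ne h1 (k + 1))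
    have f3 : k + 2 - 1 = k + 1 := by omega
    simp only [f3]
    rw [norm_one_sub h1]
    set u := ‖a t (k + 1)‖
    set v := ‖a t (k + 2)‖
    have key : A (k + 2) * (u * v) * (‖t‖ ^ (k + 1) * ‖a t 1‖ / u) ^ 2
        = A (k + 2) * (‖t‖ ^ (k + 1)) ^ 2 * ‖a t 1‖ ^ 2 * (v / u) := by
      field_simp
    rw [key]
    exact mul_lt_mul_of_pos_right (hfin k hk) (by positivity)

/-- the weights of `A.lean` -/
theorem wt_of_R {t : ℂ} (h0 : t ≠ 0) (h1 : ‖t‖ < 1) {n : ℕ} (hR : ∀ k, k + 3 ≤ n → Rk t k) :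
    Wt t n (W t) (M t) := by
  have hS := step_of_R h0 h1 hR
  refine ⟨fun k _ => W_pos h0 h1 k, ?_, hS, ?_⟩
  · have e0 := norm_pos_iff.mpr (a_ne h1 0)
    have e3 := sg_pos h0
    refine le_of_eq ?_
    unfold M W
    simp only [zero_add] at e0
    norm_num
    field_simp
  · intro k _
    have e1' := norm_pos_iff.mpr (a_ne h1 k)
    have e2' : 0 < ‖a t (k + 2)‖ := norm_pos_iff.mpr (a_ne h1 (k + 1))
    have e3 := sg_pos h0
    rw [norm_one_sub h1, sg_sq.symm]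
    have e7 : W t (k + 2) * ((sg t ^ 2) ^ (k + 1) * ‖a t 1‖ / ‖a t (k + 1)‖) ^ 2
        = sg t ^ (2 * (k + 2)) * M t (k + 2) := by
      unfold W M
      have e8 : k + 2 - 1 = k + 1 := by omega
      rw [e8]
      field_simp
      ring
    rw [e7]
    have e10 : sg t ^ (2 * (k + 2)) < 1 := pow_lt_one₀ e3.le (sg_lt_one h1) (by omega)
    have := M_pos h0 h1 k
    nlinarith

/-- **Case A for words with `T_n`**, from (R). -/
theorem no_fixed_R {t : ℂ} (h0 : t ≠ 0) (h1 : ‖t‖ < 1) {n : ℕ} (hR : ∀ k, k + 3 ≤ n → Rk t k)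
    (l : List ℕ) (hl : ∀ r ∈ l, r ≤ n) (hn : n ∈ l ∨ n ≤ 1) {L : ℕ → ℂ} (hL0 : L 0 = 0)
    (hLn : L n = 0) (hfix : ∀ j ≤ n, act t l L j = L j) : ∀ j ≤ n, L j = 0 :=
  no_fixed h1 (wt_of_R h0 h1 hR) l hl hn hL0 hLn hfix

end Pool.Agent.Helper43.LZ
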